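import Pool.Agent.Helper11.M3.Goals4
import Pool.Agent.Helper17.PP0.LRG

/-!
# Project M3 (MP_fc6b1e_nt, step 2), packet Q_B: `D₁` large
-/

set_option autoImplicit false

namespace Pool.Agent.Helper35.M3.QB

open Finset Pool.Agent.Helper17.PP Pool.Agent.Helper17.PP0 Pool.Agent.Helper17.PP2
open Pool.Agent.Helper11.M3
open Pool.Agent.Helper17.PP0.LRG (rsj nm_insert nm_union one_le_nm mem_blk mem_mods exp_eq)
open Pool.Agent.Helper30.PP2 (c0 ph_congr ph_insert ph_norm)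

section Basic

variable {p : ℕ} {B B₀ k U Λ C : Type} [Field k] [AddCommGroup U] [Module k U]
    [AddCommGroup Λ] [Module k Λ] [AddCommGroup C] (S : Sys p B B₀ k U Λ C)

open Classical in
/-- The label function `ĉ` away from `q`. -/
noncomputable def cd (j : ℕ) (P₁ : B) (c : B → k) : B → k :=
  fun q' ↦ if q' = P₁ then 0 else c0 S j c q'

open Classical in
/-- The label function `ŷ` away from `q`. -/
noncomputable def yd (j : ℕ) (P₁ : B) (y : B → k) : B → k :=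
  fun q' ↦ if q' = P₁ then 0 else if S.spl q' ∧ S.bl q' ≠ j then y q' else 0

theorem cutd_self (j : ℕ) (q P₁ : B) (t : k) (c : B → k) : cutd S j q P₁ t c q = t := by
  simp [cutd]

theorem cutd_ne (j : ℕ) (q P₁ q' : B) (t : k) (c : B → k) (h : q' ≠ q) :
    cutd S j q P₁ t c q' = cd S j P₁ c q' := by
  simp [cutd, cd, c0, h]

theorem cute_self (j : ℕ) (q P₁ : B) (s y₁ : k) (y : B → k) : cute S j q P₁ s y₁ y q = s := by
  simp [cute]

theorem cute_ne (j : ℕ) (q P₁ q' : B) (s : k) (y : B → k) (h : q' ≠ q) :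
    cute S j q P₁ s 0 y q' = yd S j P₁ y q' := by
  simp [cute, yd, h]

open Classical in
/-- The conditions on `D`, for fixed `r`, `P₁ ∈ r` and the label `ε` of `q`. -/
structure Dq (N : B → Prop) (e : B → k) (i j m : ℕ) (t ε : k) (c y : B → k) (P r : Finset B)
    (P₁ : B) (D : Finset B) : Prop where
  sub : D ⊆ P
  dis : Disjoint D r
  blk : ∀ q' ∈ D ∪ r, S.spl q' → S.bl q' ≠ j
  spl : ∀ q' ∈ D, S.spl q' ∧ y q' ≠ 0 ∧ c0 S j c q' * ε ≠ t * e q'
  log : Nat.log 2 (S.nm D) = i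
  rst : ∀ q' ∈ r, S.spl q' → q' ≠ P₁ → y q' = 0 ∨ c0 S j c q' * ε = t * e q'
  inj : Set.InjOn S.bs ((D ∪ r : Finset B) : Set B)
  piv : Piv S N (D ∪ r) P₁
  ma : m ≤ S.bl P₁
  cs : (∀ q, N q ∧ S.spl q) → j < S.bl P₁

open Classical in
theorem mem_D₁ {e : B → k} {s : Finset B} {q P₁ : B} (hq : q ∉ s) {j : ℕ} (hj : S.bl q = j)
    {t : k} {c y : B → k} {q' : B} :
    q' ∈ D₁ S e (insert q s) q P₁ t c y ↔
      (q' ≠ P₁ ∧ q' ∈ s) ∧ S.spl q' ∧ y q' ≠ 0 ∧ c0 S j c q' * e q ≠ t * e q' := by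
  unfold D₁ sp
  rw [mem_filter, mem_filter, mem_erase, erase_insert hq, hj]
  constructor
  · rintro ⟨⟨⟨h1, h2⟩, h3⟩, h4, h5⟩
    have hne : q' ≠ q := fun h ↦ hq (h ▸ h2)
    rw [cutd_ne S j q P₁ q' t c hne, cd, if_neg h1] at h5
    exact ⟨⟨h1, h2⟩, h3, h4, h5⟩
  · rintro ⟨⟨h1, h2⟩, h3, h4, h5⟩
    have hne : q' ≠ q := fun h ↦ hq (h ▸ h2)
    refine ⟨⟨⟨h1, h2⟩, h3⟩, h4, ?_⟩
    rw [cutd_ne S j q P₁ q' t c hne, cd, if_neg h1]
    exact h5

open Classical in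
theorem cond_iff {N : B → Prop} {Y : AddSubgroup k}
    (cas : (∀ q, N q ∧ S.spl q) ∨ ((∀ q, N q → ¬ S.spl q) ∧ Y = ⊥)) (e : B → k) {i j m : ℕ}
    {t : k} {c y : B → k} {P r D : Finset B} {P₁ q : B} (hD : D ⊆ P) (hr : Disjoint D r)
    (hP₁ : P₁ ∈ r) (hq : q ∉ D ∪ r) :
    (S.Fam (insert q (D ∪ r)) ∧ (Wv S (insert q (D ∪ r)) q ∧ S.bl q = j) ∧
      (Piv S N (insert q (D ∪ r)) P₁ ∧ P₁ ≠ q ∧ m ≤ S.bl P₁) ∧
      (D = D₁ S e (insert q (D ∪ r)) q P₁ t c y ∧ Nat.log 2 (S.nm D) = i)) ↔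
    (S.bl q = j ∧ S.spl q) ∧ Dq S N e i j m t (e q) c y P r P₁ D ∧
      S.cls q + ∑ q' ∈ D ∪ r, S.cls q' = S.cl₀ := by
  have hPD : P₁ ∉ D := fun h ↦ disjoint_left.1 hr h hP₁
  have hPs : P₁ ∈ D ∪ r := mem_union_right _ hP₁
  have hPq : P₁ ≠ q := fun h ↦ hq (h ▸ hPs)
  constructor
  · rintro ⟨⟨hF1, hF2⟩, ⟨hW, hj⟩, ⟨hPv, -, hm⟩, hDe, hlog⟩
    refine ⟨⟨hj, hW.spl⟩, ⟨hD, hr, ?_, ?_, hlog, ?_, ?_, ?_, hm, ?_⟩, ?_⟩
    · intro q' hq' hs hb
      have hne : q' ≠ q := fun h ↦ hq (h ▸ hq')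
      exact hW.uniq q' (mem_insert_of_mem hq') hne hs (hb.trans hj.symm)
    · intro q' hq'
      rw [hDe] at hq'
      exact ((mem_D₁ S hq hj).1 hq').2
    · intro q' hq' hs hne
      by_contra hcon
      push Not at hcon
      have h1 : q' ∈ D₁ S e (insert q (D ∪ r)) q P₁ t c y :=
        (mem_D₁ S hq hj).2 ⟨⟨hne, mem_union_right _ hq'⟩, hs, hcon.1, hcon.2⟩
      rw [← hDe] at h1
      exact disjoint_left.1 hr h1 hq'
    · refine hF1.mono ?_
      exact_mod_cast subset_insert _ _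
    · exact ⟨hPs, hPv.isN, fun P' hP' hN hne ↦ hPv.top P' (mem_insert_of_mem hP') hN hne⟩
    · intro hall
      rw [← hj]
      exact hPv.top q (mem_insert_self _ _) (hall q).1 hPq.symm
    · rw [← sum_insert hq]
      exact hF2
  · rintro ⟨⟨hj, hs⟩, hDc, hcl⟩
    refine ⟨⟨?_, ?_⟩, ⟨⟨mem_insert_self _ _, hs, ?_⟩, hj⟩,
      ⟨⟨mem_insert_of_mem hPs, hDc.piv.isN, ?_⟩, hPq, hDc.ma⟩, ?_, hDc.log⟩
    · rw [coe_insert, Set.injOn_insert (by exact_mod_cast hq)]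
      refine ⟨hDc.inj, ?_⟩
      rintro ⟨q', hq', he⟩
      have hs' : S.spl q' := (S.bsS q' q he).2 hs
      have hb' : S.bl q' = j := by
        rw [← hj]
        unfold Sys.bl
        rw [S.bsN q' q he]
      exact hDc.blk q' (by exact_mod_cast hq') hs' hb'
    · rw [sum_insert hq]
      exact hcl
    · intro q' hq' hne hs' hb
      exact hDc.blk q' (mem_of_mem_insert_of_ne hq' hne) hs' (hb.trans hj)
    · intro P' hP' hN hne
      rcases mem_insert.1 hP' with rfl | hP'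
      · rcases cas with hall | ⟨hno, -⟩
        · rw [hj]
          exact hDc.cs hall
        · exact absurd hs (hno _ hN)
      · exact hDc.piv.top P' hP' hN hne
    · ext q'
      rw [mem_D₁ S hq hj]
      constructor
      · intro hq'
        exact ⟨⟨fun h ↦ hPD (h ▸ hq'), mem_union_left _ hq'⟩, hDc.spl q' hq'⟩
      · rintro ⟨⟨h1, h2⟩, h3, h4, h5⟩
        rcases mem_union.1 h2 with h | h
        · exact h
        · rcases hDc.rst q' h h3 h1 with h6 | h6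
          · exact absurd h6 h4
          · exact absurd h6 h5

open Classical in
/-- The factor of the phase which depends on `q` and `r`. -/
noncomputable def Aq [Algebra (ZMod p) k] (ψ : AddChar k ℂ) (χ : AddChar Λ ℂ) (j : ℕ) (t : k)
    (c y : B → k) (r : Finset B) (P₁ q : B) : ℂ :=
  χ (S.lam q t) * ∏ q' ∈ r, ψ (yd S j P₁ y q' * (t * S.a q' q +
    cd S j P₁ c q' * algebraMap (ZMod p) k (S.kap q' q)))

theorem norm_Aq [Algebra (ZMod p) k] [Finite k] [Finite Λ] (ψ : AddChar k ℂ)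
    (χ : AddChar Λ ℂ) (j : ℕ) (t : k) (c y : B → k) (r : Finset B) (P₁ q : B) :
    ‖Aq S ψ χ j t c y r P₁ q‖ = 1 := by
  unfold Aq
  rw [norm_mul, norm_prod, AddChar.norm_apply, one_mul]
  exact prod_eq_one fun q' _ ↦ AddChar.norm_apply _ _

open Classical in
theorem phase [Algebra (ZMod p) k] (ψ : AddChar k ℂ) (χ : AddChar Λ ℂ) {N : B → Prop}
    {e : B → k} {i j m : ℕ} {t ε : k} {c y : B → k} {P r D : Finset B} {P₁ : B}
    (h : Dq S N e i j m t ε c y P r P₁ D) (hP₁ : P₁ ∈ r) {q : B} (hq : q ∉ D ∪ r) (x : U) :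
    ph S ψ χ (insert q (D ∪ r)) x (cutd S j q P₁ t c) (cute S j q P₁ 0 0 y) =
      ph S ψ χ (D ∪ r) x (cd S j P₁ c) (yd S j P₁ y) * Aq S ψ χ j t c y r P₁ q *
        S.chr ψ D y (c0 S j c) t q := by
  have hPD : P₁ ∉ D := fun h' ↦ disjoint_left.1 h.dis h' hP₁
  have hne : ∀ q' ∈ D ∪ r, q' ≠ q := fun q' hq' h' ↦ hq (h' ▸ hq')
  have hc : ∀ q' ∈ D ∪ r, cutd S j q P₁ t c q' = cd S j P₁ c q' := fun q' hq' ↦
    cutd_ne S j q P₁ q' t c (hne q' hq')
  have hy : ∀ q' ∈ D ∪ r, cute S j q P₁ 0 0 y q' = yd S j P₁ y q' := fun q' hq' ↦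
    cute_ne S j q P₁ q' 0 y (hne q' hq')
  rw [ph_insert S ψ χ (D ∪ r) x _ _ q hq, ph_congr S ψ χ (D ∪ r) x _ _ _ _ hc hy, cutd_self,
    cute_self, zero_mul, AddChar.map_zero_eq_one, mul_one, prod_union h.dis]
  have e1 : ∏ q' ∈ D, ψ (cute S j q P₁ 0 0 y q' * (t * S.a q' q +
      cutd S j q P₁ t c q' * algebraMap (ZMod p) k (S.kap q' q))) =
      S.chr ψ D y (c0 S j c) t q := by
    unfold Sys.chr
    refine prod_congr rfl fun q' hq' ↦ ?_
    have h1 : q' ∈ D ∪ r := mem_union_left _ hq'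
    have h2 : q' ≠ P₁ := fun h' ↦ hPD (h' ▸ hq')
    rw [hc q' h1, hy q' h1, cd, yd, if_neg h2, if_neg h2,
      if_pos ⟨(h.spl q' hq').1, h.blk q' h1 (h.spl q' hq').1⟩]
  have e2 : ∏ q' ∈ r, ψ (cute S j q P₁ 0 0 y q' * (t * S.a q' q +
      cutd S j q P₁ t c q' * algebraMap (ZMod p) k (S.kap q' q))) =
      ∏ q' ∈ r, ψ (yd S j P₁ y q' * (t * S.a q' q +
      cd S j P₁ c q' * algebraMap (ZMod p) k (S.kap q' q))) := by
    refine prod_congr rfl fun q' hq' ↦ ?_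
    rw [hc q' (mem_union_right _ hq'), hy q' (mem_union_right _ hq')]
  rw [e1, e2]
  unfold Aq
  ring

open Classical in
theorem card_rs₄ {j : ℕ} {r D : Finset B} {P₁ q : B} (h : Disjoint D r) (hP₁ : P₁ ∈ r)
    (hq : q ∉ D ∪ r) (hj : S.bl q = j) :
    (rs₄ S (insert q (D ∪ r)) q P₁).card = (rsj S j D).card + (rsj S j (r.erase P₁)).card := by
  have hPD : P₁ ∉ D := fun h' ↦ disjoint_left.1 h h' hP₁
  unfold rs₄ rsj
  rw [erase_insert hq, erase_union_distrib, erase_eq_of_notMem hPD, hj, filter_union,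
    card_union_of_disjoint]
  exact disjoint_filter_filter (h.mono_right (erase_subset _ _))

end Basic

section Main

variable {p : ℕ} [Fact p.Prime] {B B₀ k U Λ C : Type} [Field k] [Fintype k]
    [Algebra (ZMod p) k] [AddCommGroup U] [Module k U]
    [AddCommGroup Λ] [Module k Λ] [AddCommGroup C] (S : Sys p B B₀ k U Λ C)

open Classical in
/-- The summand for fixed `x, χ, c, y`. -/
noncomputable def GG (ψ : AddChar k ℂ) (N : B → Prop) (e : B → k) (i j m : ℕ) (t : k) (X : ℝ)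
    (x : U) (χ : AddChar Λ ℂ) (c y : B → k) (b : Finset B) (q P₁ : B) (D : Finset B) : ℂ :=
  if S.Fam b ∧ (Wv S b q ∧ S.bl q = j) ∧ (Piv S N b P₁ ∧ P₁ ≠ q ∧ m ≤ S.bl P₁) ∧
      (D = D₁ S e b q P₁ t c y ∧ Nat.log 2 (S.nm D) = i) then
    (Fintype.card k : ℂ) ^ (rs₄ S b q P₁).card *
      ph S ψ χ b x (cutd S j q P₁ t c) (cute S j q P₁ 0 0 y) * (Real.exp (-(S.nm b / X)) : ℂ)
  else 0

open Classical in
/-- The term of the bilinear form. -/
noncomputable def zt (ψ : AddChar k ℂ) (j : ℕ) (t : k) (X : ℝ) (x : U) (χ : AddChar Λ ℂ)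
    (c y : B → k) (r : Finset B) (P₁ q : B) (D : Finset B) : ℂ :=
  Aq S ψ χ j t c y r P₁ q *
    ((Fintype.card k : ℂ) ^ (rsj S j D).card * ph S ψ χ (D ∪ r) x (cd S j P₁ c) (yd S j P₁ y)) *
    S.chr ψ D y (c0 S j c) t q * (Real.exp (-(S.N q * S.nm D / (X / S.nm r))) : ℂ)

open Classical in
theorem GG_eq (ψ : AddChar k ℂ) {N : B → Prop} {Y : AddSubgroup k}
    (cas : (∀ q, N q ∧ S.spl q) ∨ ((∀ q, N q → ¬ S.spl q) ∧ Y = ⊥)) (e : B → k) (i j m : ℕ)
    (t : k) (X : ℝ) (x : U) (χ : AddChar Λ ℂ) (c y : B → k) {P r D : Finset B} {P₁ q : B}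
    (hD : D ⊆ P) (hr : Disjoint D r) (hP₁ : P₁ ∈ r) (hq : q ∉ D ∪ r) (hj : S.bl q = j)
    (hs : S.spl q) :
    GG S ψ N e i j m t X x χ c y (insert q (D ∪ r)) q P₁ D =
      (Fintype.card k : ℂ) ^ (rsj S j (r.erase P₁)).card *
      if Dq S N e i j m t (e q) c y P r P₁ D ∧ S.cls q + ∑ q' ∈ D ∪ r, S.cls q' = S.cl₀ then
        zt S ψ j t X x χ c y r P₁ q D else 0 := by
  have hiff := cond_iff S cas e (i := i) (j := j) (m := m) (t := t) (c := c) (y := y) hD hr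
    hP₁ hq
  unfold GG
  by_cases h : Dq S N e i j m t (e q) c y P r P₁ D ∧
      S.cls q + ∑ q' ∈ D ∪ r, S.cls q' = S.cl₀
  · rw [if_pos (hiff.2 ⟨⟨hj, hs⟩, h⟩), if_pos h, phase S ψ χ h.1 hP₁ hq x,
      card_rs₄ S hr hP₁ hq hj, exp_eq S hr hq X, pow_add]
    unfold zt
    ring
  · rw [if_neg (fun h2 ↦ h (hiff.1 h2).2), if_neg h, mul_zero]

open Classical in
theorem bil [Finite Λ] [Finite C] (ψ : AddChar k ℂ) {N : B → Prop} {Y : AddSubgroup k}
    {e : B → k} {g : ℝ → ℝ} {K : ℕ} (hyp : Hyp₄ S ψ e N Y g K) (i : ℕ) {j : ℕ} (hj : 1 ≤ j)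
    (m : ℕ) {t : k} (ht : t ≠ 0) (ε : k) {X : ℝ} (hX : 0 < X) (x : U) (χ : AddChar Λ ℂ)
    (c y : B → k) (P r : Finset B) (P₁ : B) :
    ‖∑ q ∈ S.blk j with (S.spl q ∧ e q = ε), ∑ D ∈ S.mods i,
      if q ∈ P ∧ Dq S N e i j m t ε c y P r P₁ D ∧
          S.cls q + ∑ q' ∈ D ∪ r, S.cls q' = S.cl₀ then
        zt S ψ j t X x χ c y r P₁ q D else 0‖ ≤
      Nat.card C * (K * 2 ^ (i + j) * (i + 1) ^ K * (2 : ℝ) ^ (-(min i j : ℝ) / K) *
        Real.exp (-((2 : ℝ) ^ (i + j) / (2 * (X / S.nm r))))) := by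
  let _ : Fintype C := Fintype.ofFinite C
  let α : C → B → ℂ := fun γ q ↦ if q ∈ P ∧ S.cls q = γ then Aq S ψ χ j t c y r P₁ q else 0
  let β : C → Finset B → ℂ := fun γ D ↦
    if Dq S N e i j m t ε c y P r P₁ D ∧ γ + ∑ q' ∈ D ∪ r, S.cls q' = S.cl₀ then
      (Fintype.card k : ℂ) ^ (rsj S j D).card *
        ph S ψ χ (D ∪ r) x (cd S j P₁ c) (yd S j P₁ y) else 0
  have h1 : ∀ (q : B) (D : Finset B),
      (if q ∈ P ∧ Dq S N e i j m t ε c y P r P₁ D ∧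
          S.cls q + ∑ q' ∈ D ∪ r, S.cls q' = S.cl₀ then
        zt S ψ j t X x χ c y r P₁ q D else 0) =
      ∑ γ : C, α γ q * β γ D * S.chr ψ D y (c0 S j c) t q *
        (Real.exp (-(S.N q * S.nm D / (X / S.nm r))) : ℂ) := by
    intro q D
    rw [sum_eq_single (S.cls q)]
    · simp only [α, β]
      by_cases h2 : q ∈ P
      · by_cases h3 : Dq S N e i j m t ε c y P r P₁ D ∧
            S.cls q + ∑ q' ∈ D ∪ r, S.cls q' = S.cl₀
        · rw [if_pos ⟨h2, h3⟩, if_pos ⟨h2, trivial⟩, if_pos h3]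
          rfl
        · rw [if_neg (fun h4 ↦ h3 h4.2), if_neg h3]
          ring
      · rw [if_neg (fun h4 ↦ h2 h4.1), if_neg (fun h4 ↦ h2 h4.1)]
        ring
    · intro γ _ hγ
      simp only [α]
      rw [if_neg (fun h4 ↦ hγ h4.2.symm)]
      ring
    · intro h
      exact absurd (mem_univ _) h
  simp only [h1]
  have h2 : ∑ q ∈ S.blk j with (S.spl q ∧ e q = ε), ∑ D ∈ S.mods i, ∑ γ : C,
      α γ q * β γ D * S.chr ψ D y (c0 S j c) t q *
        (Real.exp (-(S.N q * S.nm D / (X / S.nm r))) : ℂ) =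
      ∑ γ : C, ∑ q ∈ S.blk j with (S.spl q ∧ e q = ε), ∑ D ∈ S.mods i,
        α γ q * β γ D * S.chr ψ D y (c0 S j c) t q *
        (Real.exp (-(S.N q * S.nm D / (X / S.nm r))) : ℂ) := by
    rw [sum_comm (s := (univ : Finset C))]
    exact sum_congr rfl fun q _ ↦ sum_comm
  rw [h2]
  rw [Nat.card_eq_fintype_card]
  have hr : (0 : ℝ) < S.nm r := by exact_mod_cast one_le_nm S r
  have hk : (1 : ℝ) ≤ Fintype.card k := by
    have : 0 < Fintype.card k := Fintype.card_pos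
    exact_mod_cast this
  refine (norm_sum_le_of_le _ fun γ _ ↦ hyp.bl₁ i j t ε y (c0 S j c) (α γ) (β γ) (X / S.nm r)
    hj ht (div_pos hX hr) ?_ ?_ ?_).trans ?_
  · intro q
    simp only [α]
    split_ifs
    · rw [norm_Aq]
    · simp
  · intro D
    simp only [β]
    split_ifs
    · rw [norm_mul, ph_norm, mul_one, norm_pow, Complex.norm_natCast]
      refine pow_le_pow_right₀ hk ?_
      unfold rsj
      exact card_filter_le _ _
    · rw [norm_zero]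
      positivity
  · intro D hD
    simp only [β] at hD
    by_cases h3 : Dq S N e i j m t ε c y P r P₁ D ∧ γ + ∑ q' ∈ D ∪ r, S.cls q' = S.cl₀
    · refine ⟨h3.1.inj.mono ?_, ?_⟩
      · exact_mod_cast subset_union_left
      · intro q hq
        have h4 := h3.1.spl q hq
        exact ⟨h4.1, h3.1.blk q (mem_union_left _ hq) h4.1, h4.2⟩
    · rw [if_neg h3] at hD
      exact absurd rfl hD
  · rw [sum_const, card_univ, nsmul_eq_mul]

open Classical in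
/-- The inner double sum for fixed `r` and `P₁`. -/
theorem inner_eq (ψ : AddChar k ℂ) {N : B → Prop} {Y : AddSubgroup k}
    (cas : (∀ q, N q ∧ S.spl q) ∨ ((∀ q, N q → ¬ S.spl q) ∧ Y = ⊥)) (e : B → k) (i j m : ℕ)
    (t : k) (X : ℝ) (x : U) (χ : AddChar Λ ℂ) (c y : B → k) {P r : Finset B} {P₁ : B}
    (hP₁ : P₁ ∈ r) :
    ∑ D ∈ (P \ r).powerset, ∑ q ∈ P \ (D ∪ r),
      GG S ψ N e i j m t X x χ c y (insert q (D ∪ r)) q P₁ D =
    (Fintype.card k : ℂ) ^ (rsj S j (r.erase P₁)).card *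
      ∑ ε : k, ∑ q ∈ S.blk j with (S.spl q ∧ e q = ε), ∑ D ∈ S.mods i,
        if q ∈ P ∧ Dq S N e i j m t ε c y P r P₁ D ∧
            S.cls q + ∑ q' ∈ D ∪ r, S.cls q' = S.cl₀ then
          zt S ψ j t X x χ c y r P₁ q D else 0 := by
  set w : ℂ := (Fintype.card k : ℂ) ^ (rsj S j (r.erase P₁)).card with hw
  have e1 : ∑ ε : k, ∑ q ∈ S.blk j with (S.spl q ∧ e q = ε), ∑ D ∈ S.mods i,
        (if q ∈ P ∧ Dq S N e i j m t ε c y P r P₁ D ∧
            S.cls q + ∑ q' ∈ D ∪ r, S.cls q' = S.cl₀ then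
          zt S ψ j t X x χ c y r P₁ q D else 0) =
      ∑ q ∈ S.blk j with S.spl q, ∑ D ∈ S.mods i,
        (if q ∈ P ∧ Dq S N e i j m t (e q) c y P r P₁ D ∧
            S.cls q + ∑ q' ∈ D ∪ r, S.cls q' = S.cl₀ then
          zt S ψ j t X x χ c y r P₁ q D else 0) := by
    rw [← sum_fiberwise (S.blk j |>.filter fun q ↦ S.spl q) (fun q ↦ e q)]
    refine sum_congr rfl fun ε _ ↦ ?_
    rw [filter_filter]
    refine sum_congr rfl fun q hq ↦ ?_
    rw [(mem_filter.1 hq).2.2]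
  rw [e1, sum_comm, mul_sum]
  refine sum_congr_of_eq_on_inter ?_ ?_ ?_
  · intro D hD hDi
    refine sum_eq_zero fun q _ ↦ ?_
    unfold GG
    rw [if_neg]
    rintro ⟨-, -, -, -, h⟩
    exact hDi ((mem_mods S).2 h)
  · intro D _ hD
    rw [sum_eq_zero, mul_zero]
    intro q _
    rw [if_neg]
    rintro ⟨-, h, -⟩
    refine hD ?_
    rw [mem_powerset]
    exact subset_sdiff.2 ⟨h.sub, h.dis⟩
  · intro D hD _
    rw [mem_powerset, subset_sdiff] at hD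
    rw [mul_sum]
    refine sum_congr_of_eq_on_inter ?_ ?_ ?_
    · intro q hq hqn
      rw [mem_sdiff] at hq
      unfold GG
      rw [if_neg]
      intro h
      have h2 := (cond_iff S cas e hD.1 hD.2 hP₁ hq.2).1 h
      refine hqn ?_
      rw [mem_filter, mem_blk]
      exact h2.1
    · intro q hq hqn
      rw [mem_filter, mem_blk] at hq
      rw [if_neg, mul_zero]
      rintro ⟨h1, h2, -⟩
      refine hqn ?_
      rw [mem_sdiff]
      exact ⟨h1, fun h3 ↦ h2.blk q h3 hq.2 hq.1⟩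
    · intro q hq hqb
      rw [mem_sdiff] at hq
      rw [mem_filter, mem_blk] at hqb
      rw [GG_eq S ψ cas e i j m t X x χ c y hD.1 hD.2 hP₁ hq.2 hqb.1 hqb.2]
      congr 1
      by_cases h : Dq S N e i j m t (e q) c y P r P₁ D ∧
          S.cls q + ∑ q' ∈ D ∪ r, S.cls q' = S.cl₀
      · rw [if_pos h, if_pos ⟨hq.1, h⟩]
      · rw [if_neg h, if_neg (fun h2 ↦ h h2.2)]

open Classical in
theorem inner_le [Finite Λ] [Finite C] (ψ : AddChar k ℂ) {N : B → Prop} {Y : AddSubgroup k}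
    {e : B → k} {g : ℝ → ℝ} {K : ℕ} (hyp : Hyp₄ S ψ e N Y g K) (i : ℕ) {j : ℕ} (hj : 1 ≤ j)
    (m : ℕ) {t : k} (ht : t ≠ 0) {X : ℝ} (hX : 0 < X) (x : U) (χ : AddChar Λ ℂ)
    (c y : B → k) (P r : Finset B) :
    ‖∑ D ∈ (P \ r).powerset, ∑ q ∈ P \ (D ∪ r), ∑ P₁ ∈ r,
      GG S ψ N e i j m t X x χ c y (insert q (D ∪ r)) q P₁ D‖ ≤
      (Fintype.card k : ℝ) ^ r.card * (Fintype.card k *
      (Nat.card C * (K * 2 ^ (i + j) * (i + 1) ^ K * (2 : ℝ) ^ (-(min i j : ℝ) / K) *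
        Real.exp (-((2 : ℝ) ^ (i + j) / (2 * (X / S.nm r))))))) := by
  set Bd : ℝ := (Nat.card C * (K * 2 ^ (i + j) * (i + 1) ^ K *
    (2 : ℝ) ^ (-(min i j : ℝ) / K) *
        Real.exp (-((2 : ℝ) ^ (i + j) / (2 * (X / S.nm r)))))) with hBd
  have hBd0 : 0 ≤ Bd := by positivity
  have hk : (1 : ℝ) ≤ Fintype.card k := by
    have : 0 < Fintype.card k := Fintype.card_pos
    exact_mod_cast this
  have e1 : ∑ D ∈ (P \ r).powerset, ∑ q ∈ P \ (D ∪ r), ∑ P₁ ∈ r,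
      GG S ψ N e i j m t X x χ c y (insert q (D ∪ r)) q P₁ D =
      ∑ P₁ ∈ r, ∑ D ∈ (P \ r).powerset, ∑ q ∈ P \ (D ∪ r),
        GG S ψ N e i j m t X x χ c y (insert q (D ∪ r)) q P₁ D := by
    rw [sum_comm (s := r)]
    exact sum_congr rfl fun D _ ↦ sum_comm
  rw [e1]
  -- a `P₁` which is not the pivot gives `0`
  have hz : ∀ P₁ ∈ r, ¬ Piv S N r P₁ → ∑ D ∈ (P \ r).powerset, ∑ q ∈ P \ (D ∪ r),
        GG S ψ N e i j m t X x χ c y (insert q (D ∪ r)) q P₁ D = 0 := by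
    intro P₁ hP₁ hn
    refine sum_eq_zero fun D _ ↦ sum_eq_zero fun q _ ↦ ?_
    unfold GG
    rw [if_neg]
    rintro ⟨-, -, ⟨h, -, -⟩, -⟩
    exact hn ⟨hP₁, h.isN, fun P' hP' hN hne ↦
      h.top P' (mem_insert_of_mem (mem_union_right _ hP')) hN hne⟩
  by_cases hex : ∃ P₁ ∈ r, Piv S N r P₁
  · obtain ⟨P₁, hP₁, hPv⟩ := hex
    rw [sum_eq_single P₁ (fun P' hP' hne ↦ hz P' hP' fun h ↦ by
      have h1 := hPv.top P' hP' h.isN hne
      have h2 := h.top P₁ hP₁ hPv.isN hne.symm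
      omega) (fun h ↦ absurd hP₁ h), inner_eq S ψ hyp.cas e i j m t X x χ c y hP₁, norm_mul,
      norm_pow, Complex.norm_natCast]
    refine mul_le_mul ?_ ?_ (norm_nonneg _) (by positivity)
    · refine pow_le_pow_right₀ hk ?_
      unfold rsj
      exact (card_filter_le _ _).trans (card_le_card (erase_subset _ _))
    · refine (norm_sum_le_of_le _ fun ε _ ↦
        bil S ψ hyp i hj m ht ε hX x χ c y P r P₁).trans (le_of_eq ?_)
      rw [sum_const, card_univ, nsmul_eq_mul]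
  · rw [sum_eq_zero fun P₁ hP₁ ↦ hz P₁ hP₁ fun h ↦ hex ⟨P₁, hP₁, h⟩, norm_zero]
    positivity

open Classical in
theorem fixed_eq (hdec : C_DEC) (ψ : AddChar k ℂ) (N : B → Prop)
    (e : B → k) (i j m : ℕ) (t : k) (X : ℝ) (x : U) (χ : AddChar Λ ℂ) (c y : B → k)
    (P : Finset B) :
    ∑ b ∈ P.powerset with S.Fam b, ∑ q ∈ b with (Wv S b q ∧ S.bl q = j),
      ∑ P₁ ∈ b with (Piv S N b P₁ ∧ P₁ ≠ q ∧ m ≤ S.bl P₁),
        (if FB S e i b q P₁ t χ c y then (Fintype.card k : ℂ) ^ (rs₄ S b q P₁).card *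
          ph S ψ χ b x (cutd S (S.bl q) q P₁ t c) (cute S (S.bl q) q P₁ 0 0 y) *
          (Real.exp (-(S.nm b / X)) : ℂ) else 0) =
    ∑ r ∈ P.powerset, ∑ D ∈ (P \ r).powerset, ∑ q ∈ P \ (D ∪ r), ∑ P₁ ∈ r,
      GG S ψ N e i j m t X x χ c y (insert q (D ∪ r)) q P₁ D := by
  obtain ⟨h1, h2, -⟩ := hdec B P
  have e1 : ∑ b ∈ P.powerset with S.Fam b, ∑ q ∈ b with (Wv S b q ∧ S.bl q = j),
      ∑ P₁ ∈ b with (Piv S N b P₁ ∧ P₁ ≠ q ∧ m ≤ S.bl P₁),
        (if FB S e i b q P₁ t χ c y then (Fintype.card k : ℂ) ^ (rs₄ S b q P₁).card *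
          ph S ψ χ b x (cutd S (S.bl q) q P₁ t c) (cute S (S.bl q) q P₁ 0 0 y) *
          (Real.exp (-(S.nm b / X)) : ℂ) else 0) =
      ∑ b ∈ P.powerset, ∑ q ∈ b, ∑ D ∈ (b.erase q).powerset, ∑ P₁ ∈ (b.erase q) \ D,
        GG S ψ N e i j m t X x χ c y (insert q (b.erase q)) q P₁ D := by
    rw [sum_filter]
    refine sum_congr rfl fun b _ ↦ ?_
    by_cases hF : S.Fam b
    · rw [if_pos hF, sum_filter]
      refine sum_congr rfl fun q hq ↦ ?_
      rw [insert_erase hq]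
      by_cases hW : Wv S b q ∧ S.bl q = j
      · rw [if_pos hW, sum_filter]
        -- the sum over `D`
        have e2 : ∀ D ∈ (b.erase q).powerset, ∑ P₁ ∈ (b.erase q) \ D,
            GG S ψ N e i j m t X x χ c y b q P₁ D =
            ∑ P₁ ∈ b, GG S ψ N e i j m t X x χ c y b q P₁ D := by
          intro D _
          refine sum_subset (sdiff_subset.trans (erase_subset _ _)) fun P₁ hP₁ hn ↦ ?_
          unfold GG
          rw [if_neg]
          rintro ⟨-, -, ⟨-, hne, -⟩, hD, -⟩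
          refine hn ?_
          rw [mem_sdiff, mem_erase]
          refine ⟨⟨hne, hP₁⟩, fun h3 ↦ ?_⟩
          rw [hD] at h3
          unfold D₁ sp at h3
          rw [mem_filter, mem_filter, mem_erase] at h3
          exact h3.1.1.1 rfl
        rw [sum_congr rfl e2, sum_comm]
        refine sum_congr rfl fun P₁ _ ↦ ?_
        by_cases hP : Piv S N b P₁ ∧ P₁ ≠ q ∧ m ≤ S.bl P₁
        · rw [if_pos hP, sum_eq_single (D₁ S e b q P₁ t c y)]
          · unfold GG FB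
            by_cases h3 : Nat.log 2 (S.nm (D₁ S e b q P₁ t c y)) = i
            · rw [if_pos h3, if_pos ⟨hF, hW, hP, rfl, h3⟩, hW.2]
            · rw [if_neg h3, if_neg (fun h4 ↦ h3 h4.2.2.2.2)]
          · intro D _ hne
            unfold GG
            rw [if_neg (fun h4 ↦ hne h4.2.2.2.1)]
          · intro h4
            refine absurd ?_ h4
            rw [mem_powerset]
            unfold D₁ sp
            exact (filter_subset _ _).trans ((filter_subset _ _).trans (erase_subset _ _))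
        · rw [if_neg hP]
          refine (sum_eq_zero fun D _ ↦ ?_).symm
          unfold GG
          rw [if_neg (fun h4 ↦ hP h4.2.2.1)]
      · rw [if_neg hW]
        refine (sum_eq_zero fun D _ ↦ sum_eq_zero fun P₁ _ ↦ ?_).symm
        unfold GG
        rw [if_neg (fun h4 ↦ hW h4.2.1)]
    · rw [if_neg hF]
      refine (sum_eq_zero fun q hq ↦ sum_eq_zero fun D _ ↦ sum_eq_zero fun P₁ _ ↦ ?_).symm
      unfold GG
      rw [insert_erase hq, if_neg (fun h4 ↦ hF h4.1)]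
  rw [e1]
  have e2 := h1 ℂ (fun q s ↦ ∑ D ∈ s.powerset, ∑ P₁ ∈ s \ D,
    GG S ψ N e i j m t X x χ c y (insert q s) q P₁ D)
  rw [e2]
  have e3 : ∀ s ∈ P.powerset, ∑ q ∈ P \ s, ∑ D ∈ s.powerset, ∑ P₁ ∈ s \ D,
      GG S ψ N e i j m t X x χ c y (insert q s) q P₁ D =
      ∑ D ∈ s.powerset, ∑ q ∈ P \ (D ∪ (s \ D)), ∑ P₁ ∈ s \ D,
        GG S ψ N e i j m t X x χ c y (insert q (D ∪ (s \ D))) q P₁ D := by
    intro s _
    rw [sum_comm]
    refine sum_congr rfl fun D hD ↦ ?_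
    rw [union_sdiff_of_subset (mem_powerset.1 hD)]
  rw [sum_congr rfl e3]
  exact h2 ℂ (fun D r ↦ ∑ q ∈ P \ (D ∪ r), ∑ P₁ ∈ r,
    GG S ψ N e i j m t X x χ c y (insert q (D ∪ r)) q P₁ D)

open Classical in
theorem ful_eq [Fintype U] [Fintype Λ] (ψ : AddChar k ℂ) (P b : Finset B) (q P₁ : B) (t : k)
    (F : AddChar Λ ℂ → (B → k) → (B → k) → Prop) (ex : ℂ) :
    ful₄ S ψ P b q P₁ t 0 0 F * ex =
      ∑ z ∈ (univ : Finset U) ×ˢ (univ : Finset (AddChar Λ ℂ)) ×ˢ (lab k P) ×ˢ (lab k P),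
        (1 / (Fintype.card Λ * ((lab k P).card : ℂ) ^ 2)) *
        (if F z.2.1 z.2.2.1 z.2.2.2 then (Fintype.card k : ℂ) ^ (rs₄ S b q P₁).card *
          ph S ψ z.2.1 b z.1 (cutd S (S.bl q) q P₁ t z.2.2.1)
            (cute S (S.bl q) q P₁ 0 0 z.2.2.2) * ex else 0) := by
  unfold ful₄
  rw [sum_product]
  simp only [sum_product, sum_filter]
  simp only [mul_sum, sum_mul]
  refine sum_congr rfl fun x _ ↦ sum_congr rfl fun χ _ ↦ sum_congr rfl fun c _ ↦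
    sum_congr rfl fun y _ ↦ ?_
  split_ifs
  · ring
  · ring

open Classical in
theorem total_le (hdec : C_DEC) [Fintype U] [Fintype Λ] [Finite C] (ψ : AddChar k ℂ)
    {N : B → Prop} {Y : AddSubgroup k} {e : B → k} {g : ℝ → ℝ} {K : ℕ}
    (hyp : Hyp₄ S ψ e N Y g K) (i : ℕ) {j : ℕ} (hj : 1 ≤ j) (m : ℕ) {t : k} (ht : t ≠ 0)
    {X : ℝ} (hX : 0 < X) (P : Finset B) :
    ‖∑ b ∈ P.powerset with S.Fam b, ∑ q ∈ b with (Wv S b q ∧ S.bl q = j),
      ∑ P₁ ∈ b with (Piv S N b P₁ ∧ P₁ ≠ q ∧ m ≤ S.bl P₁),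
        ful₄ S ψ P b q P₁ t 0 0 (FB S e i b q P₁ t) * (Real.exp (-(S.nm b / X)) : ℂ)‖ ≤
    Fintype.card U * ∑ r ∈ P.powerset, (Fintype.card k : ℝ) ^ r.card * (Fintype.card k *
      (Nat.card C * (K * 2 ^ (i + j) * (i + 1) ^ K * (2 : ℝ) ^ (-(min i j : ℝ) / K) *
        Real.exp (-((2 : ℝ) ^ (i + j) / (2 * (X / S.nm r))))))) := by
  set M : ℝ := ∑ r ∈ P.powerset, (Fintype.card k : ℝ) ^ r.card * (Fintype.card k *
      (Nat.card C * (K * 2 ^ (i + j) * (i + 1) ^ K * (2 : ℝ) ^ (-(min i j : ℝ) / K) *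
        Real.exp (-((2 : ℝ) ^ (i + j) / (2 * (X / S.nm r))))))) with hM
  have hM0 : 0 ≤ M := by
    rw [hM]
    positivity
  set Z : Finset (U × AddChar Λ ℂ × (B → k) × (B → k)) :=
    (univ : Finset U) ×ˢ (univ : Finset (AddChar Λ ℂ)) ×ˢ (lab k P) ×ˢ (lab k P) with hZ
  have hlab : 0 < (lab k P).card := card_pos.2 ⟨0, mem_lab.2 fun _ _ ↦ rfl⟩
  have e1 : ∑ b ∈ P.powerset with S.Fam b, ∑ q ∈ b with (Wv S b q ∧ S.bl q = j),
      ∑ P₁ ∈ b with (Piv S N b P₁ ∧ P₁ ≠ q ∧ m ≤ S.bl P₁),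
        ful₄ S ψ P b q P₁ t 0 0 (FB S e i b q P₁ t) * (Real.exp (-(S.nm b / X)) : ℂ) =
      ∑ z ∈ Z, (1 / (Fintype.card Λ * ((lab k P).card : ℂ) ^ 2)) *
      ∑ b ∈ P.powerset with S.Fam b, ∑ q ∈ b with (Wv S b q ∧ S.bl q = j),
      ∑ P₁ ∈ b with (Piv S N b P₁ ∧ P₁ ≠ q ∧ m ≤ S.bl P₁),
        (if FB S e i b q P₁ t z.2.1 z.2.2.1 z.2.2.2 then
          (Fintype.card k : ℂ) ^ (rs₄ S b q P₁).card *
          ph S ψ z.2.1 b z.1 (cutd S (S.bl q) q P₁ t z.2.2.1)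
            (cute S (S.bl q) q P₁ 0 0 z.2.2.2) *
          (Real.exp (-(S.nm b / X)) : ℂ) else 0) := by
    simp only [ful_eq, mul_sum]
    calc _ = ∑ b ∈ P.powerset with S.Fam b, ∑ z ∈ Z,
        ∑ q ∈ b with (Wv S b q ∧ S.bl q = j),
        ∑ P₁ ∈ b with (Piv S N b P₁ ∧ P₁ ≠ q ∧ m ≤ S.bl P₁),
          (1 / (Fintype.card Λ * ((lab k P).card : ℂ) ^ 2)) *
          (if FB S e i b q P₁ t z.2.1 z.2.2.1 z.2.2.2 then
          (Fintype.card k : ℂ) ^ (rs₄ S b q P₁).card *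
          ph S ψ z.2.1 b z.1 (cutd S (S.bl q) q P₁ t z.2.2.1)
            (cute S (S.bl q) q P₁ 0 0 z.2.2.2) *
          (Real.exp (-(S.nm b / X)) : ℂ) else 0) := by
          refine sum_congr rfl fun b _ ↦ ?_
          exact Eq.trans (sum_congr rfl fun q _ ↦ sum_comm) sum_comm
      _ = _ := sum_comm
  rw [e1]
  refine (norm_sum_le _ _).trans ?_
  have h1 : ∀ z ∈ Z, ‖(1 / (Fintype.card Λ * ((lab k P).card : ℂ) ^ 2)) *
      ∑ b ∈ P.powerset with S.Fam b, ∑ q ∈ b with (Wv S b q ∧ S.bl q = j),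
      ∑ P₁ ∈ b with (Piv S N b P₁ ∧ P₁ ≠ q ∧ m ≤ S.bl P₁),
        (if FB S e i b q P₁ t z.2.1 z.2.2.1 z.2.2.2 then
          (Fintype.card k : ℂ) ^ (rs₄ S b q P₁).card *
          ph S ψ z.2.1 b z.1 (cutd S (S.bl q) q P₁ t z.2.2.1)
            (cute S (S.bl q) q P₁ 0 0 z.2.2.2) *
          (Real.exp (-(S.nm b / X)) : ℂ) else 0)‖ ≤
      1 / (Fintype.card Λ * ((lab k P).card : ℝ) ^ 2) * M := by
    intro z _
    rw [norm_mul, norm_div, norm_one, norm_mul, norm_pow, Complex.norm_natCast,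
      Complex.norm_natCast]
    refine mul_le_mul_of_nonneg_left ?_ (by positivity)
    rw [fixed_eq S hdec ψ N e i j m t X z.1 z.2.1 z.2.2.1 z.2.2.2 P]
    exact norm_sum_le_of_le _ fun r _ ↦
      inner_le S ψ hyp i hj m ht hX z.1 z.2.1 z.2.2.1 z.2.2.2 P r
  refine (sum_le_sum h1).trans (le_of_eq ?_)
  rw [sum_const, nsmul_eq_mul]
  have h3 : Z.card = Fintype.card U * (Fintype.card Λ * ((lab k P).card * (lab k P).card)) := by
    rw [hZ, card_product, card_product, card_product, card_univ, card_univ, AddChar.card_eq]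
  have h7 : (0 : ℝ) < (lab k P).card := by exact_mod_cast hlab
  have h8 : (0 : ℝ) < Fintype.card Λ := by exact_mod_cast Fintype.card_pos
  rw [h3]
  push_cast
  field_simp

open Classical in
theorem upto_sumW (ψ : AddChar k ℂ) (g : ℝ → ℝ) (K : ℕ) (hH : HypW S ψ g K) (X Y : ℝ)
    (hYX : Y ≤ X) :
    ∑ q ∈ S.upto Y, (1 : ℝ) / S.N q ≤ K * (1 + Real.log (lg X + 1)) := by
  have h1 : ∀ q ∈ S.upto Y, S.bl q ∈ Icc 1 (lg X) := by
    intro q hq
    unfold Sys.upto at hq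
    rw [Set.Finite.mem_toFinset] at hq
    have h2 : S.N q ≤ ⌊X⌋₊ := le_trans hq (Nat.floor_le_floor hYX)
    rw [mem_Icc]
    constructor
    · unfold Sys.bl
      exact Nat.log_pos (by norm_num) (S.two_le q)
    · unfold Sys.bl lg
      exact Nat.log_mono_right h2
  rw [← sum_fiberwise_of_maps_to h1]
  have h2 : ∀ m ∈ Icc 1 (lg X), ∑ q ∈ S.upto Y with S.bl q = m, (1 : ℝ) / S.N q ≤
      K * (m : ℝ)⁻¹ := by
    intro m hm
    refine le_trans ?_ ((hH.che m (mem_Icc.1 hm).1).trans_eq (div_eq_mul_inv _ _))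
    refine sum_le_sum_of_subset_of_nonneg ?_ fun q _ _ => by positivity
    intro q hq
    exact (mem_blk S).2 (mem_filter.1 hq).2
  refine (sum_le_sum h2).trans ?_
  rw [← mul_sum]
  refine mul_le_mul_of_nonneg_left ?_ (by positivity)
  have h3 := harmonic_le_one_add_log (lg X)
  rw [harmonic_eq_sum_Icc] at h3
  push_cast at h3
  refine h3.trans ?_
  rcases Nat.eq_zero_or_pos (lg X) with h4 | h4
  · rw [h4]
    simp
  · have h5 : (0 : ℝ) < lg X := by exact_mod_cast h4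
    have := Real.log_le_log h5 (show (lg X : ℝ) ≤ lg X + 1 by linarith)
    linarith

end Main

end Pool.Agent.Helper35.M3.QB

namespace Pool.Agent.Helper35.M3

open Finset Pool.Agent.Helper17.PP Pool.Agent.Helper17.PP0 Pool.Agent.Helper17.PP2
open Pool.Agent.Helper11.M3
open Pool.Agent.Helper17.PP0.LRG (one_le_nm)

open Classical in
theorem q_b (hdec : C_DEC) : Pool.Agent.Helper11.M3.Q_B := by
  intro p _ B B₀ k U Λ C _ _ _ _ _ _ _ _ _ _ _ S ψ e N Yg g K hH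
  set n0 := (Fintype.card k - 1) * K with hn0
  set C1 : ℕ := 4 * Fintype.card U * Fintype.card k * Nat.card C * K ^ 3 * 3 ^ n0 with hC1
  refine ⟨C1 + n0, fun i j m t X P hi hj ht hX => ?_⟩
  have hX0 : 0 < X := by linarith
  refine (QB.total_le S hdec ψ hH i hj m ht hX0 P).trans ?_
  set Y : ℝ := 2 * X / 2 ^ (i + j) with hY
  have hY0 : 0 < Y := by positivity
  have h2ij : (2 : ℝ) ≤ 2 ^ (i + j) := by
    calc (2 : ℝ) = 2 ^ 1 := by norm_num
      _ ≤ 2 ^ (i + j) := pow_le_pow_right₀ (by norm_num) (by omega)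
  have hYX : Y ≤ X := by
    rw [hY, div_le_iff₀ (by positivity)]
    nlinarith
  set w : ℝ := (2 : ℝ) ^ (-(min i j : ℝ) / K) with hw
  have hw0 : 0 ≤ w := by positivity
  have hQ1 : 1 ≤ Fintype.card k := Fintype.card_pos
  have hK1 : (1 : ℝ) ≤ K := by exact_mod_cast hH.one_le
  have hgX : 1 ≤ g X := hH.g_one X
  have hgY : g Y ≤ K * g X := hH.g_mono Y X hYX
  have h1 := hH.ht (fun _ => Fintype.card k) (fun q => ⟨by positivity, by linarith⟩) Y hY0 P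
  simp only [prod_const] at h1
  have h2 : ∑ q ∈ S.upto Y, ((Fintype.card k : ℝ) - 1) / S.N q ≤
      n0 * (1 + Real.log (lg X + 1)) := by
    have h3 := QB.upto_sumW S ψ g K hH.toHypW X Y hYX
    have h4 : ∑ q ∈ S.upto Y, ((Fintype.card k : ℝ) - 1) / S.N q =
        ((Fintype.card k : ℝ) - 1) * ∑ q ∈ S.upto Y, (1 : ℝ) / S.N q := by
      rw [mul_sum]
      exact sum_congr rfl fun q _ => by ring
    rw [h4, hn0]
    push_cast [Nat.cast_sub hQ1]
    rw [mul_assoc]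
    refine mul_le_mul_of_nonneg_left h3 ?_
    have : (1 : ℝ) ≤ Fintype.card k := by exact_mod_cast hQ1
    linarith
  have hL0 : (0 : ℝ) < (lg X : ℝ) + 1 := by positivity
  have h3 : Real.exp (∑ q ∈ S.upto Y, ((Fintype.card k : ℝ) - 1) / S.N q) ≤
      3 ^ n0 * ((lg X : ℝ) + 2) ^ n0 := by
    calc _ ≤ Real.exp (n0 * (1 + Real.log (lg X + 1))) := Real.exp_le_exp.2 h2
      _ = (Real.exp 1 * (lg X + 1)) ^ n0 := by
        rw [Real.exp_nat_mul, Real.exp_add, Real.exp_log hL0]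
      _ ≤ (3 * ((lg X : ℝ) + 2)) ^ n0 := by
        have h4 : Real.exp 1 ≤ 3 := by
          have := Real.exp_one_lt_d9
          linarith
        refine pow_le_pow_left₀ (by positivity) ?_ _
        refine mul_le_mul h4 (by linarith) hL0.le (by norm_num)
      _ = _ := by rw [mul_pow]
  have hmin : min 1 Y ≤ 2 * min 1 (X / 2 ^ (i + j)) := by
    have h5 : Y = 2 * (X / 2 ^ (i + j)) := by
      rw [hY]
      ring
    rw [h5]
    have h6 : 0 < X / 2 ^ (i + j) := by positivity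
    rcases le_total 1 (X / 2 ^ (i + j)) with h7 | h7
    · rw [min_eq_left h7]
      exact (min_le_left _ _).trans (by norm_num)
    · rw [min_eq_right h7]
      exact min_le_right _ _
  set mm : ℝ := min 1 (X / 2 ^ (i + j)) with hmm
  have hmm0 : 0 ≤ mm := by
    rw [hmm]
    exact le_min (by norm_num) (by positivity)
  have hexp : ∀ r, Real.exp (-((2 : ℝ) ^ (i + j) / (2 * (X / S.nm r)))) =
      Real.exp (-(S.nm r / Y)) := by
    intro r
    have hr : (0 : ℝ) < S.nm r := by exact_mod_cast one_le_nm S r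
    congr 2
    rw [hY]
    field_simp
  simp only [hexp]
  -- the sum over `r`
  have h8 : ∑ r ∈ P.powerset, (Fintype.card k : ℝ) ^ r.card * (Fintype.card k *
      (Nat.card C * (K * 2 ^ (i + j) * (i + 1) ^ K * w * Real.exp (-(S.nm r / Y))))) ≤
      Nat.card C * (Fintype.card k : ℝ) * (K * 2 ^ (i + j) * (i + 1) ^ K * w) *
        (K * (Y * (2 * mm) * (K * g X)) * (3 ^ n0 * ((lg X : ℝ) + 2) ^ n0)) := by
    have e1 : ∑ r ∈ P.powerset, (Fintype.card k : ℝ) ^ r.card * (Fintype.card k *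
        (Nat.card C * (K * 2 ^ (i + j) * (i + 1) ^ K * w * Real.exp (-(S.nm r / Y))))) =
        Nat.card C * (Fintype.card k : ℝ) * (K * 2 ^ (i + j) * (i + 1) ^ K * w) *
        ∑ r ∈ P.powerset, (Fintype.card k : ℝ) ^ r.card * Real.exp (-(S.nm r / Y)) := by
      rw [mul_sum]
      exact sum_congr rfl fun r _ => by ring
    rw [e1]
    refine mul_le_mul_of_nonneg_left ?_ (by positivity)
    refine h1.trans ?_
    have hgY0 : 0 ≤ g Y := le_trans (by norm_num) (hH.g_one Y)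
    have h9 : Y * min 1 Y * g Y ≤ Y * (2 * mm) * (K * g X) := by
      have h10 : 0 ≤ min 1 Y := le_min (by norm_num) hY0.le
      gcongr
    have h11 : 0 ≤ Y * min 1 Y * g Y := by
      have h10 : 0 ≤ min 1 Y := le_min (by norm_num) hY0.le
      positivity
    refine mul_le_mul ?_ h3 (Real.exp_pos _).le ?_
    · exact mul_le_mul_of_nonneg_left h9 (by positivity)
    · have : 0 ≤ Y * (2 * mm) * (K * g X) := h11.trans h9
      positivity
  refine (mul_le_mul_of_nonneg_left h8 (by positivity)).trans ?_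
  have h12 : (2 : ℝ) ^ (i + j) * Y = 2 * X := by
    rw [hY]
    field_simp
  have h13 : (Fintype.card U : ℝ) * (Nat.card C *
      (Fintype.card k : ℝ) * (K * 2 ^ (i + j) * (i + 1) ^ K * w) *
        (K * (Y * (2 * mm) * (K * g X)) * (3 ^ n0 * ((lg X : ℝ) + 2) ^ n0))) =
      (C1 : ℝ) * ((lg X : ℝ) + 2) ^ n0 * (i + 1) ^ K * w * mm * (X * g X) := by
    rw [hC1]
    push_cast
    linear_combination ((Fintype.card U : ℝ) * Fintype.card k * Nat.card C * K ^ 3 *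
      (i + 1) ^ K * w * 2 * mm * g X * 3 ^ n0 * ((lg X : ℝ) + 2) ^ n0) * h12
  rw [h13]
  have h14 : (C1 : ℝ) ≤ ((C1 + n0 : ℕ) : ℝ) := by
    push_cast
    have : (0 : ℝ) ≤ n0 := Nat.cast_nonneg _
    linarith
  have h15 : ((lg X : ℝ) + 2) ^ n0 ≤ ((lg X : ℝ) + 2) ^ (C1 + n0) := by
    refine pow_le_pow_right₀ ?_ (by omega)
    have : (0 : ℝ) ≤ lg X := Nat.cast_nonneg _
    linarith
  have h16 : 0 ≤ X * g X := by positivity
  gcongr

end Pool.Agent.Helper35.M3
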