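import Pool.Agent.Helper11.M3.Goals4b
import Pool.Agent.Helper74.PP.COSC
import Pool.Agent.Helper23.PP.CORT

/-!
# Project M3 (MP_fc6b1e_nt, step 2), packet U_ORT: the expansion of `cnu`
-/

set_option autoImplicit false

namespace Pool.Agent.Helper35.M3

open Finset Pool.Agent.Helper17.PP Pool.Agent.Helper11.M3
open Pool.Agent.Helper23.PP (sum_D)
open Pool.Agent.Helper74.PP (sum_ind sum_trc)

theorem rt_subset {p : ℕ} {B B₀ k U Λ C : Type} [Field k] [AddCommGroup U] [Module k U]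
    [AddCommGroup Λ] [Module k Λ] [AddCommGroup C] (S : Sys p B B₀ k U Λ C) (E : ℕ)
    (b : Finset B) (q : B) : S.rt E b q ⊆ b := by
  classical
  intro q' h
  rw [Sys.rt, mem_filter] at h
  exact mem_of_mem_erase h.1

open Classical in
theorem cnu_eq {p : ℕ} {B B₀ k U Λ C : Type} [Field k] [Fintype k] [Algebra (ZMod p) k]
    [AddCommGroup U] [Module k U] [Fintype U] [AddCommGroup Λ] [Module k Λ]
    [AddCommGroup C] (hlab : C_LAB) (S : Sys p B B₀ k U Λ C) (E : ℕ) (P b : Finset B) (q : B)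
    (hbP : b ⊆ P) (hq : q ∈ b) :
    (cnu S E b q : ℂ) = ∑ x : U, ∑ t : k with t ≠ 0,
      ((Fintype.card k : ℂ) ^ (S.rs b q).card / ((lab k P).card : ℂ)) *
        ∑ c ∈ lab k P, if ∀ q' ∈ S.rt E b q, S.R b x (S.trc b q t c) q' = 0 then (1 : ℂ) else 0 := by
  unfold cnu
  rw [card_filter, Nat.cast_sum, sum_product]
  refine sum_congr rfl fun x _ ↦ ?_
  have h1 := sum_trc S hlab P b q hbP hq
    (fun c ↦ if ∀ q' ∈ S.rt E b q, S.R b x c q' = 0 then (1 : ℂ) else 0)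
  rw [← h1, sum_filter]
  refine sum_congr rfl fun c _ ↦ ?_
  by_cases hc : c q ≠ 0 ∧ ∀ q', c q' ≠ 0 → q' = q ∨ q' ∈ S.rs b q
  · by_cases hr : ∀ q' ∈ S.rt E b q, S.R b x c q' = 0
    · rw [if_pos hc, if_pos hr, if_pos ⟨hc.2, hc.1, hr⟩, Nat.cast_one]
    · rw [if_pos hc, if_neg hr, if_neg (fun h ↦ hr h.loc), Nat.cast_zero]
  · rw [if_neg hc, if_neg (fun h ↦ hc ⟨h.ne, h.supp⟩), Nat.cast_zero]

theorem u_ort (hlab : C_LAB) : Pool.Agent.Helper11.M3.U_ORT := by
  classical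
  intro p _ B B₀ k U Λ C _ _ _ _ _ _ _ _ _ S ψ hψ E P b q hbP hq
  obtain ⟨h1, -, -, h4, -⟩ := hlab B k P
  have hrt : S.rt E b q ⊆ P := (rt_subset S E b q).trans hbP
  have hQ : (Fintype.card k : ℂ) ≠ 0 := Nat.cast_ne_zero.2 Fintype.card_ne_zero
  have hL0 : ((lab k P).card : ℂ) ≠ 0 := by
    rw [h1]
    push_cast
    exact pow_ne_zero _ hQ
  refine ⟨?_, ?_⟩
  · rw [cnu_eq hlab S E P b q hbP hq, sum_comm]
    refine sum_congr rfl fun t _ ↦ ?_
    have e0 : ∑ D ∈ (S.rt E b q).powerset, pau S ψ E P b q t D =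
        ∑ x : U, ∑ c ∈ lab k P, ((Fintype.card k : ℂ) ^ (S.rs b q).card /
          ((lab k P).card : ℂ) ^ 2) * ∑ D ∈ (S.rt E b q).powerset,
            ∑ y ∈ lab k P with (∀ q' ∈ S.rt E b q, y q' ≠ 0 ↔ q' ∈ D),
              ∏ q' ∈ D, ψ (y q' * S.R b x (S.trc b q t c) q') := by
      unfold pau
      simp only [mul_sum]
      rw [sum_comm]
      exact sum_congr rfl fun x _ ↦ sum_comm
    rw [e0]
    refine sum_congr rfl fun x _ ↦ ?_
    rw [mul_sum]
    refine sum_congr rfl fun c _ ↦ ?_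
    have h6 := sum_ind hlab ψ hψ P (S.rt E b q) hrt (fun q' ↦ S.R b x (S.trc b q t c) q')
    rw [sum_D ψ P (S.rt E b q) (fun q' ↦ S.R b x (S.trc b q t c) q'), h6]
    split_ifs with h
    · field_simp
    · rw [mul_zero, mul_zero]
  · intro t
    have h4' := h4 (fun _ ↦ (1 : ℂ)) (S.rt E b q) hrt (fun _ _ _ _ ↦ rfl)
    unfold pau
    have hy : ∑ y ∈ lab k P with (∀ q' ∈ S.rt E b q, y q' ≠ 0 ↔ q' ∈ (∅ : Finset B)), (1 : ℂ) =
        ((lab k P).card : ℂ) / (Fintype.card k : ℂ) ^ (S.rt E b q).card := by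
      have e1 : ((lab k P).filter fun y ↦ (∀ q' ∈ S.rt E b q, y q' ≠ 0 ↔ q' ∈ (∅ : Finset B))) =
          ((lab k P).filter fun y ↦ (∀ q' ∈ S.rt E b q, y q' = 0)) := by
        apply filter_congr
        intro y _
        apply forall₂_congr
        intro q' _
        simp
      rw [e1, eq_div_iff (pow_ne_zero _ hQ), mul_comm]
      refine Eq.trans ?_ (h4'.trans ?_)
      · rfl
      · simp
    have hterm : ∀ (x : U) (c y : B → k),
        ∏ q' ∈ (∅ : Finset B), ψ (y q' * S.R b x (S.trc b q t c) q') = 1 := by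
      intro x c y
      simp
    simp only [hterm, hy]
    rw [sum_const (s := lab k P), nsmul_eq_mul, sum_const (s := (univ : Finset U)), card_univ,
      nsmul_eq_mul, div_pow, one_pow]
    field_simp

end Pool.Agent.Helper35.M3
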